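import Pool.Agent.L7h3.IW.St

/-!
# Project IW (helper3): the dynamic programming theorem
-/

set_option autoImplicit false

namespace Pool.Agent.L7h3.IW

open Pool.Agent.L7h38.IW

/-- the list with the opposite signs -/
def ng (l : List ℤ) : List ℤ := l.map fun q => -q

lemma ng_cons (q : ℤ) (l : List ℤ) : ng (q :: l) = -q :: ng l := rfl

lemma ng_nil : ng [] = [] := rfl

lemma ng_sum (l : List ℤ) : (ng l).sum = -l.sum := by
  induction l with
  | nil => simp [ng_nil]
  | cons q l ih => rw [ng_cons, List.sum_cons, List.sum_cons, ih]; ring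

lemma cost_ng (t : ℝ) (l : List ℤ) : ∀ v : ℝ, cost t (-v) (ng l) = cost t v l := by
  induction l with
  | nil => intro v; rfl
  | cons q l ih =>
    intro v
    rw [ng_cons, cost, cost, ← ih]
    push_cast
    have e : t * -v + (1 - t) * -(q : ℝ) = -(t * v + (1 - t) * q) := by ring
    rw [e]
    ring

lemma sc_ng (l : List ℤ) : ∀ σ s : ℤ, sc (-σ) (-s) (ng l) = sc σ s l := by
  induction l with
  | nil => intro σ s; rfl
  | cons q l ih =>
    intro σ s
    rw [ng_cons, sc, sc]
    have e1 : (-s + -q = 0) ↔ (s + q = 0) := by constructor <;> intro h <;> omega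
    have e2 : (-s + -q).sign = -(s + q).sign := by
      rw [show -s + -q = -(s + q) by ring, Int.sign_neg]
    have e3 : (-(s + q).sign = -σ ∨ -σ = 0) ↔ ((s + q).sign = σ ∨ σ = 0) := by
      rw [neg_inj, neg_eq_zero]
    rw [e2]
    simp only [e1, e3]
    rw [show -s + -q = -(s + q) by ring, ih, ← ih σ 0, neg_zero]

lemma step_pos {s q : ℤ} (h : 0 < s + q) (l : List ℤ) : sc 1 s (q :: l) = sc 1 (s + q) l := by
  rw [sc, if_neg h.ne', Int.sign_eq_one_of_pos h, if_pos (Or.inl rfl), zero_add]

lemma step_zero {s q : ℤ} (h : s + q = 0) (l : List ℤ) : sc 1 s (q :: l) = sc 1 0 l := by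
  rw [sc, if_pos h]

lemma step_neg {s q : ℤ} (h : s + q < 0) (l : List ℤ) :
    sc 1 s (q :: l) = 1 + sc 1 (-(s + q)) (ng l) := by
  rw [sc, if_neg h.ne, Int.sign_eq_neg_one_of_neg h, if_neg (by norm_num), ← sc_ng, neg_neg]

theorem main (hST1 : S_ST1) (hST2 : S_ST2) (hST3 : S_ST3) (hST4 : S_ST4) (hST5 : S_ST5)
    (hST6 : S_ST6) {t : ℝ} (h0 : 0 < t) (h1 : t < 1) (n : ℕ) : ∀ (l : List ℤ), l.length = n →
    ∀ (v : ℝ) (s : ℤ), s + l.sum = 0 →
    (0 < s → Fk t (sc 1 s l) (-v) ≤ cost t v l) ∧ (s = 0 → Zk t (sc 1 0 l) (-v) ≤ cost t v l) := by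
  induction n with
  | zero =>
    intro l hl v s hs
    rw [List.length_eq_zero_iff] at hl
    subst hl
    simp only [List.sum_nil, add_zero] at hs
    subst hs
    refine ⟨fun h => absurd h (lt_irrefl _), fun _ => ?_⟩
    have := H_nonneg h1 (-v)
    simp only [sc, cost, Zk, if_true]
    linarith
  | succ n ih =>
    intro l hl v s hs
    obtain ⟨q, l, rfl⟩ : ∃ q l', l = q :: l' := by
      cases l with
      | nil => simp at hl
      | cons q l => exact ⟨q, l, rfl⟩
    have hl' : l.length = n := by simpa using hl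
    have hln : (ng l).length = n := by rw [ng, List.length_map]; exact hl'
    rw [List.sum_cons, ← add_assoc] at hs
    have hsn : -(s + q) + (ng l).sum = 0 := by rw [ng_sum]; omega
    have ev : t * v + (1 - t) * (q : ℝ) = -(t * -v + (1 - t) * ((-q : ℤ) : ℝ)) := by
      push_cast; ring
    obtain ⟨i1, i2⟩ := ih l hl' (t * v + (1 - t) * q) (s + q) hs
    obtain ⟨j1, -⟩ := ih (ng l) hln (-(t * v + (1 - t) * q)) (-(s + q)) hsn
    rw [cost_ng, neg_neg] at j1
    rw [cost]
    refine ⟨fun hs0 => ?_, ?_⟩
    · rcases lt_trichotomy (s + q) 0 with h | h | h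
      · rw [step_neg h]
        have a1 := hST3 t h0 h1 (1 + sc 1 (-(s + q)) (ng l)) (-v) (-q) (by omega)
        have a2 := j1 (by omega)
        rw [Nat.add_sub_cancel_left, ← ev] at a1
        push_cast at a1
        linarith
      · rw [step_zero h]
        have a1 := hST2 t h0 h1 (sc 1 0 l) (-v) (-q) (by omega)
        have a2 := i2 h
        rw [ev, neg_neg] at a2
        push_cast at a1 a2 ⊢
        have e : t * -v + (1 - t) * -(q : ℝ) = -(t * v + (1 - t) * q) := by ring
        rw [e] at a1 a2
        rw [neg_neg] at a2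
        linarith
      · rw [step_pos h]
        have a1 := hST1 t h0 h1 (sc 1 (s + q) l) (-v) (-q)
        have a2 := i1 h
        push_cast at a1
        have e : t * -v + (1 - t) * -(q : ℝ) = -(t * v + (1 - t) * q) := by ring
        rw [e] at a1
        linarith
    · rintro rfl
      rw [zero_add] at i1 i2 j1
      rcases lt_trichotomy q 0 with h | h | h
      · rw [step_neg (by omega : (0 : ℤ) + q < 0), zero_add]
        have a1 := hST6 t h0 h1 (1 + sc 1 (-q) (ng l)) (-v) (-q) (by omega)
        have a2 := j1 (by omega)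
        rw [Nat.add_sub_cancel_left, ← ev] at a1
        push_cast at a1
        linarith
      · subst h
        rw [step_zero (by norm_num)]
        have a1 := hST4 t h0 h1 (sc 1 0 l) (-v)
        have a2 := i2 rfl
        push_cast at a2 ⊢
        have e : -(t * v + (1 - t) * 0) = t * -v := by ring
        rw [e] at a2
        linarith
      · rw [step_pos (by omega : (0 : ℤ) < 0 + q), zero_add]
        have a1 := hST5 t h0 h1 (sc 1 q l) (-v) q (by omega)
        have a2 := i1 h
        have e : t * -v - (1 - t) * (q : ℝ) = -(t * v + (1 - t) * q) := by ring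
        rw [e] at a1
        linarith

lemma first {t : ℝ} (h0 : 0 < t) (h1 : t < 1) {j : ℤ} (hj : 0 < j) (k : ℕ) :
    (k : ℝ) * (1 + t) + 2 ≤ j * j + Fk t k (-((1 - t) * j)) := by
  have hj1 : (1 : ℝ) ≤ j := by exact_mod_cast hj
  unfold Fk
  rw [H_neg, mm_of_neg (by nlinarith)]
  have h2 : Hh t ((1 - t) * j) + 1 ≤ (j : ℝ) * j := by
    rcases (show j = 1 ∨ 2 ≤ j by omega) with rfl | h
    · rw [H_zero]
      · norm_num
      · push_cast
        rw [abs_of_nonneg (by nlinarith)]
        linarith
    · have hj2 : (2 : ℝ) ≤ j := by exact_mod_cast h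
      have := H_le (d := (j : ℝ)) h0 h1 (show |(1 - t) * (j : ℝ)| ≤ (1 - t) * j by
        rw [abs_of_nonneg (by nlinarith)])
      nlinarith
  linarith

theorem s_DP' (hST1 : S_ST1) (hST2 : S_ST2) (hST3 : S_ST3) (hST4 : S_ST4) (hST5 : S_ST5)
    (hST6 : S_ST6) : S_DP := by
  intro t h0 h1 l
  induction l with
  | nil => intro _ h; obtain ⟨q, hq, -⟩ := h; simp at hq
  | cons j l ih =>
    intro hs hq
    rw [List.sum_cons] at hs
    have M := main hST1 hST2 hST3 hST4 hST5 hST6 h0 h1
    rcases lt_trichotomy j 0 with h | h | h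
    · rw [cost, sc, if_neg (by omega), if_pos (Or.inr rfl), zero_add, zero_add,
        Int.sign_eq_neg_one_of_neg h, ← sc_ng l (-1) j, neg_neg]
      obtain ⟨a1, -⟩ := M _ (ng l) rfl (-(t * 0 + (1 - t) * j)) (-j) (by rw [ng_sum]; omega)
      have a2 := a1 (by omega)
      rw [cost_ng] at a2
      have a3 := first h0 h1 (j := -j) (by omega) (sc 1 (-j) (ng l))
      have e : -((1 - t) * ((-j : ℤ) : ℝ)) = - -(t * 0 + (1 - t) * j) := by push_cast; ring
      rw [e] at a3
      push_cast at a3
      linarith
    · subst h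
      rw [cost, sc, if_pos (by norm_num)]
      have e : t * 0 + (1 - t) * ((0 : ℤ) : ℝ) = 0 := by push_cast; ring
      rw [e]
      have := ih (by omega) (by
        obtain ⟨q, hq, hq0⟩ := hq
        rcases List.mem_cons.1 hq with rfl | hq
        · exact absurd rfl hq0
        · exact ⟨q, hq, hq0⟩)
      push_cast
      linarith
    · rw [cost, sc, if_neg (by omega), if_pos (Or.inr rfl), zero_add, zero_add,
        Int.sign_eq_one_of_pos h]
      obtain ⟨a1, -⟩ := M _ l rfl (t * 0 + (1 - t) * j) j hs
      have a2 := a1 h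
      have a3 := first h0 h1 (j := j) h (sc 1 j l)
      have e : -((1 - t) * (j : ℝ)) = -(t * 0 + (1 - t) * j) := by ring
      rw [e] at a3
      linarith

theorem s_DP : S_DP := s_DP' s_ST1 s_ST2 s_ST3 s_ST4 s_ST5 s_ST6

/-! ### The simple version -/

lemma low1 {t v : ℝ} {q : ℤ} (h0 : 0 < t) (h1 : t < 1) (hq : 0 ≤ q) :
    0 ≤ q * (q - v) + Hh t v - Hh t (t * v + (1 - t) * q) := by
  rcases le_total 0 v with hv | hv
  · exact PP h0 h1 hv hq
  · have hq1 : (0 : ℝ) ≤ q := by exact_mod_cast hq
    rcases le_total 0 (t * v + (1 - t) * q) with hp | hp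
    · have := A1 h0 h1 hv hp
      have := H_nonneg h1 v
      nlinarith
    · have := H_mono h1 (A2 h0 h1 hv hq1 hp)
      nlinarith

lemma low2 {t v : ℝ} {q : ℤ} (h0 : 0 < t) (h1 : t < 1) :
    0 ≤ q * (q - v) + Hh t v - Hh t (t * v + (1 - t) * q) := by
  rcases le_total 0 q with hq | hq
  · exact low1 h0 h1 hq
  · have := low1 (v := -v) (q := -q) h0 h1 (by omega)
    have e : t * -v + (1 - t) * ((-q : ℤ) : ℝ) = -(t * v + (1 - t) * q) := by push_cast; ring
    rw [e, H_neg, H_neg] at this
    push_cast at this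
    linarith

lemma low {t : ℝ} (h0 : 0 < t) (h1 : t < 1) (l : List ℤ) : ∀ v : ℝ, -Hh t v ≤ cost t v l := by
  induction l with
  | nil => intro v; have := H_nonneg h1 v; rw [cost]; linarith
  | cons q l ih =>
    intro v
    rw [cost]
    have := ih (t * v + (1 - t) * q)
    have := low2 (v := v) (q := q) h0 h1
    linarith

theorem s_DP0 : S_DP0 := by
  intro t h0 h1 l
  induction l with
  | nil => intro h; obtain ⟨q, hq, -⟩ := h; simp at hq
  | cons j l ih =>
    intro hq
    by_cases hj : j = 0
    · subst hj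
      have e : t * 0 + (1 - t) * ((0 : ℤ) : ℝ) = 0 := by push_cast; ring
      rw [cost, e]
      have := ih (by
        obtain ⟨q, hq, hq0⟩ := hq
        rcases List.mem_cons.1 hq with rfl | hq
        · exact absurd rfl hq0
        · exact ⟨q, hq, hq0⟩)
      push_cast
      linarith
    · rw [cost]
      have h2 := low h0 h1 l (t * 0 + (1 - t) * j)
      have h3 : Hh t ((1 - t) * ((|j| : ℤ) : ℝ)) = Hh t (t * 0 + (1 - t) * j) := by
        rcases abs_choice j with h | h
        · rw [h]
          congr 1
          ring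
        · rw [h, ← H_neg]
          congr 1
          push_cast
          ring
      have h4 := first h0 h1 (j := |j|) (abs_pos.2 hj) 0
      have h5 : ((|j| : ℤ) : ℝ) * ((|j| : ℤ) : ℝ) = (j : ℝ) * j := by
        push_cast
        exact abs_mul_abs_self _
      have h6 : (0 : ℝ) ≤ ((|j| : ℤ) : ℝ) := by exact_mod_cast abs_nonneg j
      rw [h5] at h4
      unfold Fk at h4
      rw [H_neg, h3, mm_of_neg (by nlinarith)] at h4
      push_cast at h4
      linarith

/-! ### The total variation -/

lemma tv (n : ℕ) : ∀ (l : List ℤ), l.length = n → ∀ s : ℤ, 0 ≤ s → s + l.sum = 0 →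
    s + 2 * (sc 1 s l : ℤ) ≤ (l.map fun q => |q|).sum := by
  induction n with
  | zero =>
    intro l hl s hs0 hs
    rw [List.length_eq_zero_iff] at hl
    subst hl
    simp only [List.sum_nil, add_zero] at hs
    subst hs
    simp [sc]
  | succ n ih =>
    intro l hl s hs0 hs
    obtain ⟨q, l, rfl⟩ : ∃ q l', l = q :: l' := by
      cases l with
      | nil => simp at hl
      | cons q l => exact ⟨q, l, rfl⟩
    have hl' : l.length = n := by simpa using hl
    have hln : (ng l).length = n := by rw [ng, List.length_map]; exact hl'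
    rw [List.sum_cons, ← add_assoc] at hs
    rw [List.map_cons, List.sum_cons]
    have hab := neg_abs_le q
    have hab' := le_abs_self q
    rcases lt_trichotomy (s + q) 0 with h | h | h
    · rw [step_neg h]
      have a1 := ih (ng l) hln (-(s + q)) (by omega) (by rw [ng_sum]; omega)
      have e : ((ng l).map fun q => |q|) = l.map fun q => |q| := by
        rw [ng, List.map_map]
        congr 1
        funext q
        simp
      rw [e] at a1
      push_cast
      omega
    · rw [step_zero h]
      have a1 := ih l hl' 0 le_rfl (by omega)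
      omega
    · rw [step_pos h]
      have a1 := ih l hl' (s + q) (by omega) hs
      omega

theorem s_L1 : S_L1 := by
  intro l
  induction l with
  | nil => intro _ h; obtain ⟨q, hq, -⟩ := h; simp at hq
  | cons j l ih =>
    intro hs hq
    rw [List.sum_cons] at hs
    rw [List.map_cons, List.sum_cons]
    have hab := neg_abs_le j
    have hab' := le_abs_self j
    rcases lt_trichotomy j 0 with h | h | h
    · rw [sc, if_neg (by omega), if_pos (Or.inr rfl), zero_add, zero_add,
        Int.sign_eq_neg_one_of_neg h, ← sc_ng l (-1) j, neg_neg]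
      have a1 := tv _ (ng l) rfl (-j) (by omega) (by rw [ng_sum]; omega)
      have e : ((ng l).map fun q => |q|) = l.map fun q => |q| := by
        rw [ng, List.map_map]
        congr 1
        funext q
        simp
      rw [e] at a1
      omega
    · subst h
      rw [sc, if_pos (by norm_num)]
      have := ih (by omega) (by
        obtain ⟨q, hq, hq0⟩ := hq
        rcases List.mem_cons.1 hq with rfl | hq
        · exact absurd rfl hq0
        · exact ⟨q, hq, hq0⟩)
      simpa using this
    · rw [sc, if_neg (by omega), if_pos (Or.inr rfl), zero_add, zero_add,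
        Int.sign_eq_one_of_pos h]
      have a1 := tv _ l rfl j (by omega) hs
      omega

end Pool.Agent.L7h3.IW
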