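import Pool.Agent.L7h77.IW.Lim

/-!
# Project IW (helper3): Riemann-Lebesgue, the quadratic form, the reduction
-/

set_option autoImplicit false

open MeasureTheory Set Filter Topology Polynomial

namespace Pool.Agent.L7h3.IW

open Pool.Agent.L7h38.IW
open Pool.Agent.L7h77.IW

lemma sq_ev (Q : ℤ[X]) (θ : ℝ) : ‖ev Q θ‖ ^ 2 = ∑ i ∈ Finset.range (Q.natDegree + 1),
    ∑ j ∈ Finset.range (Q.natDegree + 1),
      (Q.coeff i : ℝ) * Q.coeff j * Real.cos (((i - j) + (j - i) : ℕ) * θ) := by
  have e1 : ev Q θ = ∑ i ∈ Finset.range (Q.natDegree + 1), (Q.coeff i : ℂ) * zz θ ^ i := by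
    rw [ev_eq, Polynomial.aeval_eq_sum_range]
    refine Finset.sum_congr rfl fun i _ => ?_
    simp
  have e2 : ((‖ev Q θ‖ ^ 2 : ℝ) : ℂ) = ev Q θ * (starRingEnd ℂ) (ev Q θ) := by
    rw [Complex.mul_conj, Complex.normSq_eq_norm_sq]
  have e3 : ‖ev Q θ‖ ^ 2 = (ev Q θ * (starRingEnd ℂ) (ev Q θ)).re := by
    rw [← e2, Complex.ofReal_re]
  rw [e3, e1, map_sum, Finset.sum_mul_sum, Complex.re_sum]
  refine Finset.sum_congr rfl fun i _ => ?_
  rw [Complex.re_sum]
  refine Finset.sum_congr rfl fun j _ => ?_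
  rw [map_mul, ← zz_mul]
  have h2 : (Q.coeff i : ℂ) * zz θ ^ i *
      ((starRingEnd ℂ) (Q.coeff j : ℂ) * (starRingEnd ℂ) (zz θ ^ j)) =
      (((Q.coeff i : ℝ) * Q.coeff j : ℝ) : ℂ) * (zz θ ^ i * (starRingEnd ℂ) (zz θ ^ j)) := by
    have h3 : (starRingEnd ℂ) (Q.coeff j : ℂ) = (Q.coeff j : ℂ) := map_intCast (starRingEnd ℂ) _
    rw [h3]
    push_cast
    ring
  rw [h2, Complex.re_ofReal_mul]

theorem s_QF : S_QF := by
  intro μ hμ Q
  unfold JJ
  simp only [sq_ev, Finset.mul_sum]
  rw [intervalIntegral.integral_finsetSum]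
  · refine Finset.sum_congr rfl fun i _ => ?_
    rw [intervalIntegral.integral_finsetSum]
    · refine Finset.sum_congr rfl fun j _ => ?_
      unfold cc
      rw [← intervalIntegral.integral_const_mul]
      refine intervalIntegral.integral_congr fun θ _ => ?_
      ring
    · intro j _
      refine Continuous.intervalIntegrable ?_ _ _
      exact (cont_AA hμ).mul (by fun_prop)
  · intro i _
    refine Continuous.intervalIntegrable ?_ _ _
    refine continuous_finsetSum _ fun j _ => ?_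
    exact (cont_AA hμ).mul (by fun_prop)

lemma sq_one_sub (θ : ℝ) : ‖1 - Complex.exp (θ * Complex.I)‖ ^ 2 = AA θ := by
  rw [← Complex.normSq_eq_norm_sq, Complex.exp_mul_I, Complex.normSq_apply]
  simp only [Complex.sub_re, Complex.one_re, Complex.add_re, Complex.mul_re, Complex.I_re,
    Complex.I_im, Complex.sub_im, Complex.one_im, Complex.add_im, Complex.mul_im,
    ← Complex.ofReal_cos, ← Complex.ofReal_sin, Complex.ofReal_re, Complex.ofReal_im]
  unfold AA
  nlinarith [Real.sin_sq_add_cos_sq θ]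

theorem s_RED : S_RED := by
  intro m μ hμ P
  unfold wint JJ
  refine intervalIntegral.integral_congr fun θ _ => ?_
  show ‖1 - Complex.exp (θ * Complex.I)‖ ^ (2 * ((m : ℝ) + μ)) * ‖ev P θ‖ ^ 2 =
    AA θ ^ μ * ‖ev ((X - 1) ^ m * P) θ‖ ^ 2
  have h1 : ev ((X - 1) ^ m * P) θ = (Complex.exp (θ * Complex.I) - 1) ^ m * ev P θ := by
    unfold ev
    simp
  rw [h1, norm_mul, norm_pow, norm_sub_rev (Complex.exp (θ * Complex.I)) 1, mul_pow, ← pow_mul, mul_comm m 2, pow_mul, sq_one_sub,
    Real.rpow_mul (norm_nonneg _), show (2 : ℝ) = ((2 : ℕ) : ℝ) by norm_num, Real.rpow_natCast,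
    sq_one_sub]
  have hA : 0 ≤ AA θ := by
    rw [← sq_one_sub]
    positivity
  rw [Real.rpow_add_of_nonneg hA (Nat.cast_nonneg m) hμ, Real.rpow_natCast]
  ring

theorem s_RL : S_RL := by
  intro μ hμ
  set f : ℝ → ℂ := (Ioc (-Real.pi) Real.pi).indicator fun v => ((AA v ^ μ : ℝ) : ℂ) with hf
  have h1 := Real.tendsto_integral_exp_smul_cocompact f
  have h2 : Tendsto (fun k : ℕ => (k : ℝ) / (2 * Real.pi)) atTop (cocompact ℝ) := by
    have h3 : Tendsto (fun k : ℕ => (k : ℝ) / (2 * Real.pi)) atTop atTop :=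
      tendsto_natCast_atTop_atTop.atTop_div_const (by positivity)
    refine h3.mono_right ?_
    exact atTop_le_cocompact
  have h4 := (Complex.continuous_re.tendsto 0).comp (h1.comp h2)
  rw [Complex.zero_re] at h4
  refine h4.congr fun k => ?_
  have hpi : (0 : ℝ) < Real.pi := Real.pi_pos
  have hc : Continuous fun v : ℝ => ((AA v ^ μ : ℝ) : ℂ) := Complex.continuous_ofReal.comp (cont_AA hμ)
  have hint : Integrable fun v : ℝ => Real.fourierChar (-(v * ((k : ℝ) / (2 * Real.pi)))) • f v := by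
    have e : (fun v : ℝ => Real.fourierChar (-(v * ((k : ℝ) / (2 * Real.pi)))) • f v) =
        (Ioc (-Real.pi) Real.pi).indicator
          fun v => Real.fourierChar (-(v * ((k : ℝ) / (2 * Real.pi)))) • ((AA v ^ μ : ℝ) : ℂ) := by
      funext v
      rw [hf]
      by_cases hv : v ∈ Ioc (-Real.pi) Real.pi
      · rw [indicator_of_mem hv, indicator_of_mem hv]
      · rw [indicator_of_notMem hv, indicator_of_notMem hv, smul_zero]
    rw [e, integrable_indicator_iff measurableSet_Ioc]
    have hcont : Continuous fun v : ℝ =>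
        Real.fourierChar (-(v * ((k : ℝ) / (2 * Real.pi)))) • ((AA v ^ μ : ℝ) : ℂ) := by
      refine Continuous.smul ?_ hc
      exact continuous_subtype_val.comp (Real.continuous_fourierChar.comp
        (show Continuous fun v : ℝ => -(v * ((k : ℝ) / (2 * Real.pi))) by fun_prop))
    exact (hcont.integrableOn_Icc (a := -Real.pi) (b := Real.pi)).mono_set Ioc_subset_Icc_self
  show (∫ v : ℝ, Real.fourierChar (-(v * ((k : ℝ) / (2 * Real.pi)))) • f v).re = cc μ k
  have h5 := integral_re (𝕜 := ℂ) hint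
  rw [RCLike.re_eq_complex_re] at h5
  rw [← h5]
  unfold cc
  rw [intervalIntegral.integral_of_le (by linarith), ← integral_indicator measurableSet_Ioc]
  congr 1
  funext v
  by_cases hv : v ∈ Ioc (-Real.pi) Real.pi
  · rw [indicator_of_mem hv, hf, indicator_of_mem hv, Circle.smul_def, Real.fourierChar_apply,
      smul_eq_mul, mul_comm, Complex.re_ofReal_mul]
    congr 1
    have e : (2 : ℂ) * Real.pi * ((-(v * ((k : ℝ) / (2 * Real.pi))) : ℝ) : ℂ) * Complex.I =
        ((-(k * v) : ℝ) : ℂ) * Complex.I := by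
      have : (Real.pi : ℂ) ≠ 0 := by exact_mod_cast hpi.ne'
      push_cast
      field_simp
    have e' : ((2 * Real.pi * -(v * ((k : ℝ) / (2 * Real.pi))) : ℝ) : ℂ) * Complex.I =
        ((-(k * v) : ℝ) : ℂ) * Complex.I := by
      have : (Real.pi : ℂ) ≠ 0 := by exact_mod_cast hpi.ne'
      push_cast
      field_simp
    rw [e', Complex.exp_ofReal_mul_I_re, Real.cos_neg]
  · rw [indicator_of_notMem hv, hf, indicator_of_notMem hv, smul_zero]
    rfl

end Pool.Agent.L7h3.IW
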