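import Pool.Agent.L7h38.IW.Stm

/-!
# Project IW (helper3): the dynamic programming inequalities
-/

set_option autoImplicit false

namespace Pool.Agent.L7h3.IW

open Pool.Agent.L7h38.IW

lemma H_nonneg {t : ℝ} (ht : t < 1) (x : ℝ) : 0 ≤ Hh t x := by
  unfold Hh
  have h1 : (1 : ℝ) ≤ max |x| 1 := le_max_right _ _
  exact div_nonneg (by nlinarith) (by linarith)

lemma H_zero {t x : ℝ} (h : |x| ≤ 1) : Hh t x = 0 := by
  unfold Hh
  rw [max_eq_right h]
  simp

lemma H_ge {t x : ℝ} (h : 1 ≤ |x|) : Hh t x = (x ^ 2 - 1) / (2 * (1 - t)) := by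
  unfold Hh
  rw [max_eq_left h, sq_abs]

lemma H_mono {t x y : ℝ} (ht : t < 1) (h : |x| ≤ |y|) : Hh t x ≤ Hh t y := by
  unfold Hh
  have h1 : (1 : ℝ) ≤ max |x| 1 := le_max_right _ _
  have h2 : max |x| 1 ≤ max |y| 1 := max_le_max h le_rfl
  exact div_le_div_of_nonneg_right (by nlinarith) (by linarith)

lemma H_neg (t x : ℝ) : Hh t (-x) = Hh t x := by
  unfold Hh
  rw [abs_neg]

lemma H_le {t x d : ℝ} (h0 : 0 < t) (h1 : t < 1) (h : |x| ≤ (1 - t) * d) : Hh t x ≤ d ^ 2 / 2 := by
  rcases le_total |x| 1 with h2 | h2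
  · rw [H_zero h2]
    positivity
  · rw [H_ge h2, div_le_iff₀ (by linarith)]
    have h3 : x ^ 2 ≤ ((1 - t) * d) ^ 2 := by
      rw [← sq_abs x]
      exact pow_le_pow_left₀ (abs_nonneg _) h 2
    nlinarith [mul_nonneg (mul_nonneg h0.le (by linarith : (0 : ℝ) ≤ 1 - t)) (sq_nonneg d)]

/-- both values at least one -/
lemma P1 {t x d : ℝ} (h0 : 0 < t) (h1 : t < 1) (hx : 1 ≤ x) (hd : 1 ≤ d) :
    1 ≤ t * x + (1 - t) * d ∧ 0 ≤ d * (d - x) + Hh t x - Hh t (t * x + (1 - t) * d) := by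
  have h2 : 1 ≤ t * x + (1 - t) * d := by nlinarith
  refine ⟨h2, ?_⟩
  rw [H_ge (by rw [abs_of_nonneg (by linarith)]; exact hx),
    H_ge (by rw [abs_of_nonneg (by linarith)]; exact h2)]
  have h3 : d * (d - x) + (x ^ 2 - 1) / (2 * (1 - t)) - ((t * x + (1 - t) * d) ^ 2 - 1) / (2 * (1 - t)) =
      (1 + t) * (x - d) ^ 2 / 2 := by
    have : (1 - t) ≠ 0 := by linarith
    field_simp
    ring
  rw [h3]
  positivity

lemma P2 {t x d : ℝ} (h0 : 0 < t) (h1 : t < 1) (hx0 : 0 ≤ x) (hx : x ≤ 1) (hd : 2 ≤ d) :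
    (1 + t) * (1 - x) ≤ d * (d - x) - Hh t (t * x + (1 - t) * d) := by
  have hp : 0 ≤ t * x + (1 - t) * d := by nlinarith
  rcases le_total (t * x + (1 - t) * d) 1 with h2 | h2
  · rw [H_zero (by rwa [abs_of_nonneg hp])]
    nlinarith
  · rw [H_ge (by rwa [abs_of_nonneg hp])]
    have h3 : ((t * x + (1 - t) * d) ^ 2 - 1) / (2 * (1 - t)) ≤
        (d - 1) + (1 - t) * (d - 1) ^ 2 / 2 := by
      rw [div_le_iff₀ (by linarith)]
      have h4 : t * x + (1 - t) * d ≤ 1 + (1 - t) * (d - 1) := by nlinarith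
      nlinarith
    have h5 : 0 ≤ (d - 1) ^ 2 * (1 + t) := by positivity
    nlinarith

/-- the basic inequality -/
lemma PP {t x : ℝ} {d : ℤ} (h0 : 0 < t) (h1 : t < 1) (hx : 0 ≤ x) (hd : 0 ≤ d) :
    0 ≤ d * (d - x) + Hh t x - Hh t (t * x + (1 - t) * d) := by
  rcases hd.eq_or_lt with rfl | hd
  · have := H_mono h1 (show |t * x + (1 - t) * ((0 : ℤ) : ℝ)| ≤ |x| by
      simp only [Int.cast_zero, mul_zero, add_zero]
      rw [abs_mul, abs_of_pos h0]
      nlinarith [abs_nonneg x])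
    simp only [Int.cast_zero, mul_zero, add_zero, zero_mul, zero_add] at this ⊢
    linarith
  · have hd1 : (1 : ℝ) ≤ d := by exact_mod_cast hd
    rcases le_total 1 x with h2 | h2
    · exact (P1 h0 h1 h2 hd1).2
    · rcases (show d = 1 ∨ 2 ≤ d by omega) with rfl | h3
      · rw [H_zero (x := t * x + (1 - t) * ((1 : ℤ) : ℝ)) (by
          push_cast
          rw [abs_of_nonneg (by nlinarith)]
          nlinarith)]
        have := H_nonneg h1 x
        push_cast
        nlinarith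
      · have h4 := P2 h0 h1 hx h2 (d := d) (by exact_mod_cast h3)
        have := H_nonneg h1 x
        nlinarith

/-- `min (max x 0) 1` -/
lemma mm_of_neg {x : ℝ} (h : x ≤ 0) : min (max x 0) 1 = 0 := by
  rw [max_eq_right h]
  simp

lemma mm_of_mid {x : ℝ} (h : 0 ≤ x) (h1 : x ≤ 1) : min (max x 0) 1 = x := by
  rw [max_eq_left h, min_eq_left h1]

lemma mm_of_ge {x : ℝ} (h : 1 ≤ x) : min (max x 0) 1 = 1 := by
  rw [max_eq_left (by linarith), min_eq_right h]

lemma mm_nonneg (x : ℝ) : 0 ≤ min (max x 0) 1 := le_min (le_max_right _ _) zero_le_one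

lemma mm_le_one (x : ℝ) : min (max x 0) 1 ≤ 1 := min_le_right _ _

lemma mm_mono {x y : ℝ} (h : x ≤ y) : min (max x 0) 1 ≤ min (max y 0) 1 :=
  min_le_min (max_le_max h le_rfl) le_rfl

/-- moves against the memory -/
lemma A1 {t x d : ℝ} (h0 : 0 < t) (h1 : t < 1) (hx : x ≤ 0) (hp : 0 ≤ t * x + (1 - t) * d) :
    Hh t (t * x + (1 - t) * d) ≤ d ^ 2 / 2 :=
  H_le h0 h1 (by rw [abs_of_nonneg hp]; nlinarith)

lemma A2 {t x d : ℝ} (h0 : 0 < t) (h1 : t < 1) (hx : x ≤ 0) (hd : 0 ≤ d)
    (hp : t * x + (1 - t) * d ≤ 0) : |t * x + (1 - t) * d| ≤ |x| := by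
  rw [abs_of_nonpos hp, abs_of_nonpos hx]
  nlinarith

/-- the general inequality behind (1) -/
lemma ST1c {t x c : ℝ} {d : ℤ} (h0 : 0 < t) (h1 : t < 1) (hc : 1 ≤ c) (hc' : c ≤ 1 + t) :
    0 ≤ d * (d - x) + c * (min (max x 0) 1 - min (max (t * x + (1 - t) * d) 0) 1) +
      Hh t x - Hh t (t * x + (1 - t) * d) := by
  rcases (show d ≤ -1 ∨ d = 0 ∨ d = 1 ∨ 2 ≤ d by omega) with hd | rfl | rfl | hd
  · have hd1 : (d : ℝ) ≤ -1 := by exact_mod_cast hd
    rcases le_total 0 x with hx | hx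
    · rcases le_total 0 (t * x + (1 - t) * d) with hp | hp
      · have h2 : t * x + (1 - t) * d ≤ x := by nlinarith
        have h3 := H_mono h1 (show |t * x + (1 - t) * (d : ℝ)| ≤ |x| by
          rw [abs_of_nonneg hp, abs_of_nonneg hx]; exact h2)
        have h4 := mm_mono h2
        nlinarith
      · rw [mm_of_neg hp]
        have h3 := H_le (d := -(d : ℝ)) h0 h1 (show |t * x + (1 - t) * (d : ℝ)| ≤ (1 - t) * -(d : ℝ) by
          rw [abs_of_nonpos hp]; nlinarith)
        have h4 := mm_nonneg x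
        have h5 := H_nonneg h1 x
        nlinarith
    · have hp : t * x + (1 - t) * d ≤ 0 := by nlinarith
      rw [mm_of_neg hp, mm_of_neg hx]
      have h2 := PP (t := t) (x := -x) (d := -d) h0 h1 (by linarith) (by omega)
      rw [H_neg] at h2
      have h3 : t * -x + (1 - t) * ((-d : ℤ) : ℝ) = -(t * x + (1 - t) * d) := by push_cast; ring
      rw [h3, H_neg] at h2
      push_cast at h2
      nlinarith
  · simp only [Int.cast_zero, mul_zero, add_zero, zero_mul, zero_add]
    have h2 := H_mono h1 (show |t * x| ≤ |x| by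
      rw [abs_mul, abs_of_pos h0]
      nlinarith [abs_nonneg x])
    have h3 : min (max (t * x) 0) 1 ≤ min (max x 0) 1 := by
      rcases le_total 0 x with hx | hx
      · exact mm_mono (by nlinarith)
      · rw [mm_of_neg (by nlinarith)]
        exact mm_nonneg x
    nlinarith
  · push_cast
    rcases le_total 0 x with hx | hx
    · rcases le_total 1 x with h2 | h2
      · obtain ⟨h3, h4⟩ := P1 (d := 1) h0 h1 h2 le_rfl
        rw [mm_of_ge h2, mm_of_ge h3]
        linarith
      · have hp : 0 ≤ t * x + (1 - t) * 1 := by nlinarith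
        have hp' : t * x + (1 - t) * 1 ≤ 1 := by nlinarith
        rw [mm_of_mid hx h2, mm_of_mid hp hp', H_zero (x := t * x + (1 - t) * 1) (by rwa [abs_of_nonneg hp])]
        have := H_nonneg h1 x
        have h5 : c * (1 - t) ≤ 1 := by nlinarith
        nlinarith
    · rcases le_total 0 (t * x + (1 - t) * 1) with hp | hp
      · have hp' : t * x + (1 - t) * 1 ≤ 1 := by nlinarith
        rw [mm_of_neg hx, mm_of_mid hp hp', H_zero (x := t * x + (1 - t) * 1) (by rwa [abs_of_nonneg hp])]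
        have := H_nonneg h1 x
        have h5 : t * x + (1 - t) * 1 ≤ 1 - t := by nlinarith
        have h6 : c * (t * x + (1 - t) * 1) ≤ 1 := by nlinarith
        nlinarith
      · rw [mm_of_neg hx, mm_of_neg hp]
        have := H_mono h1 (A2 h0 h1 hx (by norm_num) hp)
        nlinarith
  · have hd1 : (2 : ℝ) ≤ d := by exact_mod_cast hd
    rcases le_total 0 x with hx | hx
    · rcases le_total 1 x with h2 | h2
      · obtain ⟨h3, h4⟩ := P1 (d := (d : ℝ)) h0 h1 h2 (by linarith)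
        rw [mm_of_ge h2, mm_of_ge h3]
        linarith
      · have h3 := P2 h0 h1 hx h2 hd1
        rw [mm_of_mid hx h2]
        have h4 := mm_le_one (t * x + (1 - t) * d)
        have := H_nonneg h1 x
        have h5 : c * (min (max (t * x + (1 - t) * (d : ℝ)) 0) 1 - x) ≤ (1 + t) * (1 - x) := by
          have h6 : c * (min (max (t * x + (1 - t) * (d : ℝ)) 0) 1 - x) ≤ c * (1 - x) :=
            mul_le_mul_of_nonneg_left (by linarith) (by linarith)
          nlinarith
        linarith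
    · rw [mm_of_neg hx]
      have := H_nonneg h1 x
      rcases le_total 0 (t * x + (1 - t) * d) with hp | hp
      · rcases le_total (t * x + (1 - t) * d) 1 with hp' | hp'
        · rw [mm_of_mid hp hp', H_zero (x := t * x + (1 - t) * d) (by rwa [abs_of_nonneg hp])]
          have h5 : t * x + (1 - t) * d ≤ (1 - t) * d := by nlinarith
          have h6 : c * (t * x + (1 - t) * d) ≤ c * 1 :=
            mul_le_mul_of_nonneg_left hp' (by linarith)
          nlinarith
        · rw [mm_of_ge hp']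
          have h7 := A1 h0 h1 hx hp
          nlinarith
      · rw [mm_of_neg hp]
        have := H_mono h1 (A2 h0 h1 hx (by linarith) hp)
        nlinarith

theorem s_ST1 : S_ST1 := by
  intro t h0 h1 k x d
  unfold Fk
  have h2 := ST1c (t := t) (x := x) (d := d) (c := if k = 0 then 1 else 1 + t) h0 h1
    (by split_ifs <;> linarith) (by split_ifs <;> linarith)
  linarith

/-- the inequality behind (2), (3) and (6) for `x ≥ 0` -/
lemma pos_case {t x : ℝ} {d : ℤ} (h0 : 0 < t) (h1 : t < 1) (hx : 0 ≤ x) (hd : 1 ≤ d) :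
    (1 ≤ x ∧ 1 ≤ t * x + (1 - t) * d ∧ 0 ≤ d * (d - x) + Hh t x - Hh t (t * x + (1 - t) * d)) ∨
    (x ≤ 1 ∧ d = 1 ∧ 0 ≤ t * x + (1 - t) * d ∧ t * x + (1 - t) * d ≤ 1 ∧
      Hh t (t * x + (1 - t) * d) = 0) ∨
    (x ≤ 1 ∧ 2 ≤ d ∧ 0 ≤ t * x + (1 - t) * d ∧
      (1 + t) * (1 - x) ≤ d * (d - x) - Hh t (t * x + (1 - t) * d)) := by
  have hd1 : (1 : ℝ) ≤ d := by exact_mod_cast hd
  have hp : 0 ≤ t * x + (1 - t) * d := by nlinarith
  rcases le_total 1 x with h2 | h2
  · exact Or.inl ⟨h2, P1 h0 h1 h2 hd1⟩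
  · right
    rcases (show d = 1 ∨ 2 ≤ d by omega) with rfl | h3
    · left
      have hp' : t * x + (1 - t) * ((1 : ℤ) : ℝ) ≤ 1 := by push_cast; nlinarith
      exact ⟨h2, rfl, hp, hp', H_zero (by rwa [abs_of_nonneg hp])⟩
    · exact Or.inr ⟨h2, h3, hp, P2 h0 h1 hx h2 (by exact_mod_cast h3)⟩

/-- and for `x ≤ 0` -/
lemma neg_case {t x : ℝ} {d : ℤ} (h0 : 0 < t) (h1 : t < 1) (hx : x ≤ 0) (hd : 1 ≤ d) :
    (t * x + (1 - t) * d ≤ 0 ∧ |t * x + (1 - t) * d| ≤ |x| ∧
      Hh t (t * x + (1 - t) * d) ≤ Hh t x) ∨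
    (0 ≤ t * x + (1 - t) * d ∧ d = 1 ∧ t * x + (1 - t) * d ≤ 1 - t ∧
      Hh t (t * x + (1 - t) * d) = 0) ∨
    (0 ≤ t * x + (1 - t) * d ∧ 2 ≤ d ∧ Hh t (t * x + (1 - t) * d) ≤ (d : ℝ) ^ 2 / 2) := by
  have hd1 : (1 : ℝ) ≤ d := by exact_mod_cast hd
  rcases le_total (t * x + (1 - t) * d) 0 with hp | hp
  · have := A2 h0 h1 hx (by linarith) hp
    exact Or.inl ⟨hp, this, H_mono h1 this⟩
  · right
    rcases (show d = 1 ∨ 2 ≤ d by omega) with rfl | h3
    · left
      have hp' : t * x + (1 - t) * ((1 : ℤ) : ℝ) ≤ 1 - t := by push_cast; nlinarith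
      exact ⟨hp, rfl, hp', H_zero (by rw [abs_of_nonneg hp]; linarith)⟩
    · exact Or.inr ⟨hp, h3, A1 h0 h1 hx hp⟩

theorem s_ST2 : S_ST2 := by
  intro t h0 h1 k x d hd
  have hH := H_nonneg h1 x
  have hd1 : (1 : ℝ) ≤ d := by exact_mod_cast hd
  unfold Fk Zk
  split_ifs with hk
  · subst hk
    push_cast
    rcases le_total 0 x with hx | hx
    · rcases pos_case h0 h1 hx hd with ⟨h2, h3, h4⟩ | ⟨h2, rfl, h3, h4, h5⟩ | ⟨h2, h3, h4, h5⟩
      · rw [mm_of_ge h2]
        linarith
      · rw [mm_of_mid hx h2, h5]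
        push_cast
        linarith
      · rw [mm_of_mid hx h2]
        nlinarith
    · rw [mm_of_neg hx]
      rcases neg_case h0 h1 hx hd with ⟨h2, h3, h4⟩ | ⟨h2, rfl, h3, h4⟩ | ⟨h2, h3, h4⟩
      · nlinarith
      · rw [h4]
        push_cast
        nlinarith
      · have h3' : (2 : ℝ) ≤ d := by exact_mod_cast h3
        nlinarith
  · have key : 0 ≤ d * (d - x) + Hh t x - Hh t (t * x + (1 - t) * d) - t -
        min |t * x + (1 - t) * d| 1 + (1 + t) * min (max x 0) 1 := by
      rcases le_total 0 x with hx | hx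
      · rcases pos_case h0 h1 hx hd with ⟨h2, h3, h4⟩ | ⟨h2, rfl, h3, h4, h5⟩ | ⟨h2, h3, h4, h5⟩
        · rw [mm_of_ge h2]
          have := min_le_right |t * x + (1 - t) * (d : ℝ)| 1
          linarith
        · rw [mm_of_mid hx h2, h5, abs_of_nonneg h3, min_eq_left h4]
          push_cast
          nlinarith
        · rw [mm_of_mid hx h2]
          have := min_le_right |t * x + (1 - t) * (d : ℝ)| 1
          nlinarith
      · rw [mm_of_neg hx]
        rcases neg_case h0 h1 hx hd with ⟨h2, h3, h4⟩ | ⟨h2, rfl, h3, h4⟩ | ⟨h2, h3, h4⟩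
        · have h5 := min_le_left |t * x + (1 - t) * (d : ℝ)| 1
          rw [abs_of_nonpos hx] at h3
          nlinarith
        · rw [h4, abs_of_nonneg h2, min_eq_left (by linarith)]
          push_cast at h3 ⊢
          nlinarith
        · have h3' : (2 : ℝ) ≤ d := by exact_mod_cast h3
          have := min_le_right |t * x + (1 - t) * (d : ℝ)| 1
          nlinarith
    nlinarith

theorem s_ST3 : S_ST3 := by
  intro t h0 h1 k x d hd
  have hH := H_nonneg h1 x
  have hd1 : (2 : ℝ) ≤ d := by exact_mod_cast hd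
  have hm := mm_nonneg x
  have key : ∀ c : ℝ, 1 ≤ c → c ≤ 1 + t → 0 ≤ d * (d - x) + Hh t x -
      Hh t (t * x + (1 - t) * d) - (1 + t) * (1 - min (max x 0) 1) -
      c * min (max (-(t * x + (1 - t) * d)) 0) 1 := by
    intro c hc hc'
    rcases le_total 0 x with hx | hx
    · rcases pos_case h0 h1 hx (by omega : (1 : ℤ) ≤ d) with ⟨h2, h3, h4⟩ | ⟨h2, rfl, -⟩ |
        ⟨h2, h3, h4, h5⟩
      · rw [mm_of_ge h2, mm_of_neg (x := -(t * x + (1 - t) * (d : ℝ))) (by linarith)]
        linarith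
      · omega
      · rw [mm_of_mid hx h2, mm_of_neg (x := -(t * x + (1 - t) * (d : ℝ))) (by linarith)]
        linarith
    · rw [mm_of_neg hx]
      rcases neg_case h0 h1 hx (by omega : (1 : ℤ) ≤ d) with ⟨h2, h3, h4⟩ | ⟨h2, rfl, -⟩ |
        ⟨h2, h3, h4⟩
      · have h5 := mm_le_one (-(t * x + (1 - t) * (d : ℝ)))
        have h6 := mm_nonneg (-(t * x + (1 - t) * (d : ℝ)))
        have h7 : c * min (max (-(t * x + (1 - t) * (d : ℝ))) 0) 1 ≤ (1 + t) * 1 :=
          mul_le_mul hc' h5 h6 (by linarith)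
        nlinarith
      · omega
      · rw [mm_of_neg (x := -(t * x + (1 - t) * (d : ℝ))) (by linarith)]
        nlinarith
  unfold Fk
  rw [H_neg]
  rcases k with _ | k
  · have := key 1 le_rfl (by linarith)
    simp only [Nat.zero_sub, if_true, Nat.cast_zero, zero_mul, one_mul]
    have h3 := mm_le_one x
    nlinarith
  · have := key (if k = 0 then 1 else 1 + t) (by split_ifs <;> linarith) (by split_ifs <;> linarith)
    simp only [Nat.add_sub_cancel, Nat.add_eq_zero_iff, one_ne_zero, and_false, if_false,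
      Nat.cast_add, Nat.cast_one]
    nlinarith

theorem s_ST4 : S_ST4 := by
  intro t h0 h1 k x
  have h2 : |t * x| ≤ |x| := by
    rw [abs_mul, abs_of_pos h0]
    nlinarith [abs_nonneg x]
  have h3 := H_mono h1 h2
  have h4 : min |t * x| 1 ≤ min |x| 1 := min_le_min h2 le_rfl
  unfold Zk
  split_ifs <;> linarith

theorem s_ST5 : S_ST5 := by
  intro t h0 h1 k x e he
  have hH := H_nonneg h1 x
  have he1 : (1 : ℝ) ≤ e := by exact_mod_cast he
  have hab : 0 ≤ min |x| 1 := le_min (abs_nonneg _) zero_le_one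
  -- the two pieces of information
  have key : 0 ≤ e * (e + x) + Hh t x - Hh t (t * x - (1 - t) * e) ∧
      min (max (t * x - (1 - t) * e) 0) 1 ≤ min |x| 1 := by
    rcases le_total 0 x with hx | hx
    · rcases le_total 0 (t * x - (1 - t) * e) with hp | hp
      · have h2 : t * x - (1 - t) * e ≤ x := by nlinarith
        have h3 := H_mono h1 (show |t * x - (1 - t) * (e : ℝ)| ≤ |x| by
          rw [abs_of_nonneg hp, abs_of_nonneg hx]; exact h2)
        refine ⟨by nlinarith, min_le_min ?_ le_rfl⟩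
        rw [max_eq_left hp, abs_of_nonneg hx]
        exact h2
      · rw [mm_of_neg hp]
        have h3 := H_le (d := (e : ℝ)) h0 h1 (show |t * x - (1 - t) * (e : ℝ)| ≤ (1 - t) * (e : ℝ) by
          rw [abs_of_nonpos hp]; nlinarith)
        exact ⟨by nlinarith, hab⟩
    · have hp : t * x - (1 - t) * e ≤ 0 := by nlinarith
      rw [mm_of_neg hp]
      refine ⟨?_, hab⟩
      have h2 := PP (t := t) (x := -x) (d := e) h0 h1 (by linarith) (by omega)
      rw [H_neg] at h2
      have h3 : t * -x + (1 - t) * (e : ℝ) = -(t * x - (1 - t) * e) := by ring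
      rw [h3, H_neg] at h2
      linarith
  obtain ⟨k1, k2⟩ := key
  have h5 := mm_le_one (t * x - (1 - t) * (e : ℝ))
  have h6 := mm_nonneg (t * x - (1 - t) * (e : ℝ))
  unfold Zk Fk
  split_ifs with hk
  · subst hk
    push_cast
    linarith
  · nlinarith

theorem s_ST6 : S_ST6 := by
  intro t h0 h1 k x d hd
  have hH := H_nonneg h1 x
  have hd1 : (1 : ℝ) ≤ d := by exact_mod_cast hd
  unfold Zk Fk
  rw [H_neg]
  rcases k with _ | k
  · simp only [Nat.zero_sub, if_true, Nat.cast_zero, zero_mul, one_mul, zero_add]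
    have h5 := mm_le_one (-(t * x + (1 - t) * (d : ℝ)))
    rcases le_total 0 x with hx | hx
    · have := PP (t := t) (x := x) (d := d) h0 h1 hx (by omega)
      linarith
    · rcases neg_case h0 h1 hx hd with ⟨h2, h3, h4⟩ | ⟨h2, rfl, h3, h4⟩ | ⟨h2, h3, h4⟩
      · nlinarith
      · rw [h4]
        push_cast at h5 ⊢
        nlinarith
      · nlinarith
  · have key : ∀ c : ℝ, 1 ≤ c → c ≤ 1 + t → 0 ≤ d * (d - x) - 1 + min |x| 1 -
        c * min (max (-(t * x + (1 - t) * d)) 0) 1 + Hh t x - Hh t (t * x + (1 - t) * d) := by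
      intro c hc hc'
      rcases le_total 0 x with hx | hx
      · rw [abs_of_nonneg hx]
        rcases pos_case h0 h1 hx hd with ⟨h2, h3, h4⟩ | ⟨h2, rfl, h3, h4, h5⟩ | ⟨h2, h3, h4, h5⟩
        · rw [min_eq_right h2, mm_of_neg (x := -(t * x + (1 - t) * (d : ℝ))) (by linarith)]
          linarith
        · rw [min_eq_left h2, mm_of_neg (x := -(t * x + (1 - t) * ((1 : ℤ) : ℝ))) (by linarith), h5]
          push_cast
          nlinarith
        · rw [min_eq_left h2, mm_of_neg (x := -(t * x + (1 - t) * (d : ℝ))) (by linarith)]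
          nlinarith
      · have hab : 0 ≤ min |x| 1 := le_min (abs_nonneg _) zero_le_one
        rcases neg_case h0 h1 hx hd with ⟨h2, h3, h4⟩ | ⟨h2, rfl, h3, h4⟩ | ⟨h2, h3, h4⟩
        · have h6 : min (max (-(t * x + (1 - t) * (d : ℝ))) 0) 1 ≤ min |x| 1 := by
            refine min_le_min ?_ le_rfl
            rw [max_eq_left (by linarith)]
            rw [abs_of_nonpos h2] at h3
            exact h3
          have h7 := mm_nonneg (-(t * x + (1 - t) * (d : ℝ)))
          have h8 : c * min (max (-(t * x + (1 - t) * (d : ℝ))) 0) 1 ≤ 2 * min |x| 1 :=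
            mul_le_mul (by linarith) h6 h7 (by norm_num)
          have h9 : min |x| 1 ≤ -x := by
            rw [abs_of_nonpos hx]
            exact min_le_left _ _
          nlinarith
        · rw [h4, mm_of_neg (x := -(t * x + (1 - t) * ((1 : ℤ) : ℝ))) (by linarith)]
          push_cast
          nlinarith
        · rw [mm_of_neg (x := -(t * x + (1 - t) * (d : ℝ))) (by linarith)]
          have h3' : (2 : ℝ) ≤ d := by exact_mod_cast h3
          nlinarith
    have := key (if k = 0 then 1 else 1 + t) (by split_ifs <;> linarith) (by split_ifs <;> linarith)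
    simp only [Nat.add_sub_cancel, Nat.add_eq_zero_iff, one_ne_zero, and_false, if_false,
      Nat.cast_add, Nat.cast_one]
    linarith

end Pool.Agent.L7h3.IW
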